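import Pool.Agent.U999.RSt.Star

set_option autoImplicit false

/-! # The probability estimates for star polygons -/

namespace Pool.Agent.U999.RSt

open Finset Function Pool.Agent.H832R2.JR Pool.Agent.W642.RS LaurentPolynomial

open Classical in
/-- star polygons -/
theorem star_main : ∃ C : ℝ, 0 < C ∧ ∀ (n k : ℕ) (h : Nat.Coprime k n), 2 ≤ k → 2 * k < n →
    ∀ (N : ℕ) (D : Stack N n), IsPolygon (star n k h) D → ∀ F : ℤ[T;T⁻¹],
      ((k : ℝ) - 1) ^ 3 * (TT D F : ℝ) ^ 4 ≤ C * (n : ℝ) ^ 2 * (n.factorial : ℝ) ^ 4 := by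
  obtain ⟨C, hC, h0⟩ := stack_main
  refine ⟨C, hC, fun n k h hk hkn N D hD F => ?_⟩
  have h1 := h0 N n D F
  have h2 := star_crossings hk hkn h D hD
  have hn : (0 : ℝ) < n := by
    have : 0 < n := by omega
    exact_mod_cast this
  have h3 : (N : ℝ) = n * ((k : ℝ) - 1) := by
    rw [h2]
    push_cast [Nat.cast_sub (show 1 ≤ k by omega)]
    ring
  rw [h3] at h1
  have h4 : (n : ℝ) ^ 3 * (((k : ℝ) - 1) ^ 3 * (TT D F : ℝ) ^ 4) ≤
      (n : ℝ) ^ 3 * (C * (n : ℝ) ^ 2 * (n.factorial : ℝ) ^ 4) := by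
    calc (n : ℝ) ^ 3 * (((k : ℝ) - 1) ^ 3 * (TT D F : ℝ) ^ 4) =
          (n * ((k : ℝ) - 1)) ^ 3 * (TT D F : ℝ) ^ 4 := by ring
      _ ≤ C * (n : ℝ) ^ 5 * (n.factorial : ℝ) ^ 4 := h1
      _ = _ := by ring
  exact le_of_mul_le_mul_left h4 (by positivity)

end Pool.Agent.U999.RSt
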