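import Pool.Agent.W642.RS.Total
import Pool.Agent.W902.RS.Exist

set_option autoImplicit false

/-! # Star polygons -/

namespace Pool.Agent.U999.RSt

open Finset Function Pool.Agent.H832R2 Pool.Agent.H832R2.JR Pool.Agent.W642.RS LaurentPolynomial

/-- The vertices of the star polygon `{n/k}`: the vertex number `j` is the point `k j` modulo `n`. -/
def starFun (n k : ℕ) (j : Fin n) : Fin n := ⟨(k * (j : ℕ)) % n, Nat.mod_lt _ j.pos⟩

theorem starFun_inj {n k : ℕ} (h : Nat.Coprime k n) : Injective (starFun n k) := by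
  intro i j hij
  have h1 : (k * (i : ℕ)) % n = (k * (j : ℕ)) % n := congrArg Fin.val hij
  have h2 : k * (i : ℕ) ≡ k * (j : ℕ) [MOD n] := h1
  have h3 : (i : ℕ) ≡ (j : ℕ) [MOD n] :=
    Nat.ModEq.cancel_left_of_coprime (by rwa [Nat.coprime_comm] at h) h2
  have h4 : (i : ℕ) % n = (j : ℕ) % n := h3
  rw [Nat.mod_eq_of_lt i.2, Nat.mod_eq_of_lt j.2] at h4
  exact Fin.ext h4

/-- The star polygon `{n/k}` (the standard projection of the torus knot `T(n, k)`): the closed
polygon whose edges join `k j` and `k (j + 1)` modulo `n`. -/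
noncomputable def star (n k : ℕ) (h : Nat.Coprime k n) : Equiv.Perm (Fin n) :=
  Equiv.ofBijective (starFun n k) (Finite.injective_iff_bijective.1 (starFun_inj h))

theorem star_apply {n k : ℕ} (h : Nat.Coprime k n) (j : Fin n) :
    ((star n k h j : Fin n) : ℕ) = (k * (j : ℕ)) % n := rfl

theorem star_rotate {n k : ℕ} (h : Nat.Coprime k n) (j : Fin n) :
    ((star n k h (finRotate n j) : Fin n) : ℕ) = ((star n k h j : ℕ) + k) % n := by
  rw [star_apply, star_apply]
  cases n with
  | zero => exact Fin.elim0 j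
  | succ m =>
    rw [finRotate_apply, Fin.val_add, Fin.val_one']
    rw [Nat.mod_add_mod, Nat.mul_mod, Nat.mod_mod, ← Nat.mul_mod, Nat.mul_add]
    conv_lhs => rw [Nat.add_mod, Nat.mul_mod k (1 % (m + 1)), Nat.mod_mod, ← Nat.mul_mod, mul_one,
      ← Nat.add_mod]

/-- the difference of `b` and `a` modulo `n` -/
def dif (n a b : ℕ) : ℕ := if a ≤ b then b - a else b + n - a

theorem addmod {n a k : ℕ} (ha : a < n) (hk : k < n) :
    ((a + k) % n = a + k ∧ a + k < n) ∨ ((a + k) % n = a + k - n ∧ n ≤ a + k) := by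
  rcases lt_or_ge (a + k) n with h | h
  · exact Or.inl ⟨Nat.mod_eq_of_lt h, h⟩
  · refine Or.inr ⟨?_, h⟩
    rw [Nat.mod_eq_sub_mod h, Nat.mod_eq_of_lt (by omega)]

theorem cross_iff {n k a b : ℕ} (hk : 2 ≤ k) (hkn : 2 * k < n) (ha : a < n) (hb : b < n) :
    (a ≠ b ∧ (a + k) % n ≠ b ∧ (b + k) % n ≠ a ∧
      ¬ (JR.Btw a ((a + k) % n) b ↔ JR.Btw a ((a + k) % n) ((b + k) % n))) ↔
    (0 < dif n a b ∧ dif n a b < k) ∨ n - k < dif n a b := by
  have h1 := addmod ha (show k < n by omega)
  have h2 := addmod hb (show k < n by omega)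
  generalize (a + k) % n = a' at *
  generalize (b + k) % n = b' at *
  unfold dif JR.Btw
  split_ifs with h <;> omega

theorem dif_lt {n a b : ℕ} (ha : a < n) (hb : b < n) : dif n a b < n := by
  unfold dif; split_ifs <;> omega

theorem dif_inj {n a b c : ℕ} (ha : a < n) (hb : b < n) (hc : c < n) (h : dif n a b = dif n a c) :
    b = c := by
  unfold dif at h; split_ifs at h <;> omega

theorem card_row {n k a : ℕ} (hk : 2 ≤ k) (hkn : 2 * k < n) (ha : a < n) :
    (univ.filter fun b : Fin n => (0 < dif n a b ∧ dif n a b < k) ∨ n - k < dif n a b).card =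
      2 * (k - 1) := by
  classical
  have h1 : (univ.filter fun b : Fin n => (0 < dif n a b ∧ dif n a b < k) ∨
      n - k < dif n a b).card = (Ioo 0 k ∪ Ioo (n - k) n).card := by
    let f : Fin n → Fin n := fun b => ⟨dif n a b, dif_lt ha b.2⟩
    have hf : Injective f := fun b c h =>
      Fin.ext (dif_inj ha b.2 c.2 (congrArg Fin.val h))
    have hs : Surjective f := Finite.surjective_of_injective hf
    refine card_bij (fun b _ => dif n a b) ?_ ?_ ?_
    · intro b hb
      rw [mem_filter] at hb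
      have := dif_lt ha b.2
      rw [mem_union, mem_Ioo, mem_Ioo]
      rcases hb.2 with h | h
      · exact Or.inl h
      · exact Or.inr ⟨h, this⟩
    · intro b _ c _ h
      exact Fin.ext (dif_inj ha b.2 c.2 h)
    · intro d hd
      rw [mem_union, mem_Ioo, mem_Ioo] at hd
      obtain ⟨b, hb⟩ := hs ⟨d, by omega⟩
      have hb' : dif n a b = d := congrArg Fin.val hb
      refine ⟨b, ?_, hb'⟩
      rw [mem_filter, hb']
      refine ⟨mem_univ _, ?_⟩
      rcases hd with h | h
      · exact Or.inl h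
      · exact Or.inr h.1
  rw [h1, card_union_of_disjoint, Nat.card_Ioo, Nat.card_Ioo]
  · omega
  · rw [Finset.disjoint_left]
    intro x hx hy
    rw [mem_Ioo] at hx hy
    omega

open Classical in
theorem card_ordered {n k : ℕ} (hk : 2 ≤ k) (hkn : 2 * k < n) (h : Nat.Coprime k n) :
    (univ.filter fun ij : Fin n × Fin n => EdgesCross (star n k h) ij.1 ij.2).card =
      n * (2 * (k - 1)) := by
  have key : ∀ i j : Fin n, EdgesCross (star n k h) i j ↔
      ((0 < dif n (star n k h i) (star n k h j) ∧ dif n (star n k h i) (star n k h j) < k) ∨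
        n - k < dif n (star n k h i) (star n k h j)) := by
    intro i j
    rw [← cross_iff hk hkn (star n k h i).2 (star n k h j).2]
    unfold EdgesCross
    rw [← star_rotate h i, ← star_rotate h j]
    have e1 : i ≠ j ↔ ((star n k h i : Fin n) : ℕ) ≠ (star n k h j : Fin n) := by
      rw [ne_eq, ne_eq, not_iff_not, ← Fin.ext_iff, (star n k h).injective.eq_iff]
    have e2 : finRotate n i ≠ j ↔
        ((star n k h (finRotate n i) : Fin n) : ℕ) ≠ (star n k h j : Fin n) := by
      rw [ne_eq, ne_eq, not_iff_not, ← Fin.ext_iff, (star n k h).injective.eq_iff]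
    have e3 : finRotate n j ≠ i ↔
        ((star n k h (finRotate n j) : Fin n) : ℕ) ≠ (star n k h i : Fin n) := by
      rw [ne_eq, ne_eq, not_iff_not, ← Fin.ext_iff, (star n k h).injective.eq_iff]
    rw [e1, e2, e3]
  have h1 : (univ.filter fun ij : Fin n × Fin n => EdgesCross (star n k h) ij.1 ij.2).card =
      ∑ i : Fin n, (univ.filter fun j : Fin n => EdgesCross (star n k h) i j).card := by
    simp only [card_filter]
    rw [Fintype.sum_prod_type]
  rw [h1]
  have h2 : ∀ i : Fin n, (univ.filter fun j : Fin n => EdgesCross (star n k h) i j).card =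
      2 * (k - 1) := by
    intro i
    rw [← card_row hk hkn (star n k h i).2]
    refine card_bij (fun j _ => star n k h j) ?_ ?_ ?_
    · intro j hj
      rw [mem_filter] at hj ⊢
      exact ⟨mem_univ _, (key i j).1 hj.2⟩
    · intro j _ j' _ hjj
      exact (star n k h).injective hjj
    · intro b hb
      rw [mem_filter] at hb
      refine ⟨(star n k h).symm b, ?_, Equiv.apply_symm_apply _ _⟩
      rw [mem_filter, key, Equiv.apply_symm_apply]
      exact ⟨mem_univ _, hb.2⟩
  rw [sum_congr rfl (fun i _ => h2 i), sum_const, card_univ, Fintype.card_fin, smul_eq_mul]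

open Classical in
theorem card_unordered {n : ℕ} (r : Equiv.Perm (Fin n)) :
    2 * (univ.filter fun ij : Fin n × Fin n => ij.1 < ij.2 ∧ EdgesCross r ij.1 ij.2).card =
      (univ.filter fun ij : Fin n × Fin n => EdgesCross r ij.1 ij.2).card := by
  have h1 : (univ.filter fun ij : Fin n × Fin n => EdgesCross r ij.1 ij.2) =
      (univ.filter fun ij : Fin n × Fin n => ij.1 < ij.2 ∧ EdgesCross r ij.1 ij.2) ∪
      (univ.filter fun ij : Fin n × Fin n => ij.2 < ij.1 ∧ EdgesCross r ij.1 ij.2) := by
    ext ⟨i, j⟩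
    simp only [mem_filter, mem_union, mem_univ, true_and]
    constructor
    · intro h
      rcases lt_or_gt_of_ne h.1 with h' | h'
      · exact Or.inl ⟨h', h⟩
      · exact Or.inr ⟨h', h⟩
    · rintro (h | h) <;> exact h.2
  have h2 : (univ.filter fun ij : Fin n × Fin n => ij.2 < ij.1 ∧ EdgesCross r ij.1 ij.2).card =
      (univ.filter fun ij : Fin n × Fin n => ij.1 < ij.2 ∧ EdgesCross r ij.1 ij.2).card := by
    refine card_bij (fun ij _ => (ij.2, ij.1)) ?_ ?_ ?_
    · rintro ⟨i, j⟩ hij
      rw [mem_filter] at hij ⊢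
      exact ⟨mem_univ _, hij.2.1, Pool.Agent.W902.RS.edgesCross_symm r _ _ hij.2.2⟩
    · rintro ⟨i, j⟩ _ ⟨i', j'⟩ _ h
      simp only [Prod.mk.injEq] at h
      exact Prod.ext h.2 h.1
    · rintro ⟨i, j⟩ hij
      rw [mem_filter] at hij
      refine ⟨(j, i), ?_, rfl⟩
      rw [mem_filter]
      exact ⟨mem_univ _, hij.2.1, Pool.Agent.W902.RS.edgesCross_symm r _ _ hij.2.2⟩
  rw [h1, card_union_of_disjoint, h2, two_mul]
  rw [Finset.disjoint_left]
  rintro ⟨i, j⟩ hx hy
  rw [mem_filter] at hx hy
  exact lt_asymm hx.2.1 hy.2.1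

/-- The star polygon `{n/k}` has exactly `n (k - 1)` crossings. -/
theorem star_crossings {n k N : ℕ} (hk : 2 ≤ k) (hkn : 2 * k < n) (h : Nat.Coprime k n)
    (D : Stack N n) (hD : IsPolygon (star n k h) D) : N = n * (k - 1) := by
  classical
  have h1 := XX_card D
  rw [XX_polygon _ D hD] at h1
  have h2 := card_unordered (star n k h)
  rw [card_ordered hk hkn h] at h2
  have h3 : n * (2 * (k - 1)) = 2 * (n * (k - 1)) := by ring
  rw [h3] at h2
  rw [← h1]
  exact Nat.eq_of_mul_eq_mul_left (by norm_num) h2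

end Pool.Agent.U999.RSt
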